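import Pool.Agent.TH535.GrowthX
import Pool.Agent.H306R2.EvenConst

set_option autoImplicit false

/-!
Unconditional lower bounds for the high moments of zeta on the critical line over all intervals
`[T, T + U]`, `U ≥ (log T)^B`, with constants `A ^ (k ^ 2) a_k / (k ^ 2)!` for every `A` below
`sup_{0 < t < 1} 4^(1-t) t^(-t) (1+t)^(-(1-t^2)/t) = 1.7435...`.
-/

open Filter

theorem Pool.Agent.Results.MP_6a632e_nt.GrowthWindows.result (t A : ℝ) (ht : 0 < t)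
    (ht1 : t < 1) (hA : 0 < A)
    (hAt : A < 4 ^ (1 - t) / (t ^ t * (1 + t) ^ ((1 - t ^ 2) / t))) :
    ∃ K : ℕ, ∀ k : ℕ, K ≤ k → ∃ B : ℝ, 0 < B ∧ ∀ᶠ T : ℝ in atTop, ∀ U : ℝ, Real.log T ^ B ≤ U →
      A ^ (k ^ 2) *
        ((∏' p : Nat.Primes, ((1 - 1 / (p : ℝ)) ^ (k ^ 2) *
          ∑' m : ℕ, ((m + k - 1).choose m : ℝ) ^ 2 * (1 / (p : ℝ)) ^ m)) /
            ((k ^ 2).factorial : ℝ)) * Real.log U ^ (k ^ 2) ≤
      1 / U * ∫ t in T..(T + U), ‖riemannZeta (1 / 2 + t * Complex.I)‖ ^ (2 * k) := by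
  rw [← Pool.Agent.TH535.exp_GG ht] at hAt
  obtain ⟨N0, hN0⟩ := Pool.Agent.TH535.growthX ht ht1 hA hAt
  refine ⟨max N0 1, fun k hk => ?_⟩
  have hk1 : 1 ≤ k := le_trans (le_max_right _ _) hk
  obtain ⟨B, hB, h⟩ := hN0 (2 * k) (by have := le_trans (le_max_left _ _) hk; omega)
  refine ⟨B, hB, ?_⟩
  have e1 : ((2 * k : ℕ) : ℝ) / 2 = (k : ℝ) := by push_cast; ring
  rw [e1, Pool.Agent.H306R2.aF_nat k hk1] at h
  have e2 : ((k : ℝ) ^ 2) = ((k ^ 2 : ℕ) : ℝ) := by push_cast; ring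
  have e3 : Real.Gamma ((k : ℝ) ^ 2 + 1) = ((k ^ 2).factorial : ℝ) := by
    rw [e2, Real.Gamma_nat_eq_factorial]
  rw [e3, e2] at h
  simp only [Real.rpow_natCast] at h
  have e4 : ∀ x : ℝ, x ^ (2 * (k : ℝ)) = x ^ (2 * k) := by
    intro x
    rw [← Real.rpow_natCast]
    push_cast
    rfl
  simp only [e4] at h
  filter_upwards [h, eventually_gt_atTop 1] with T hT hT0 U hU
  have hU0 : 0 < U := lt_of_lt_of_le (Real.rpow_pos_of_pos (Real.log_pos hT0) _) hU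
  rw [one_div U, ← div_eq_inv_mul, le_div_iff₀ hU0]
  refine le_trans (le_of_eq ?_) (hT U hU)
  ring
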